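import Pool.Agent.P.MP_488119_gt.NoDef
import Pool.Agent.P.MP_488119_gt.Fox

namespace Pool.Agent.Results.MP_488119_gt.AlgebraicComplex

open Pool.Agent.P.MP_488119_gt

/-- There is a finitely presented group `G` with torsion which is the normal closure of one
element and has an algebraic 2-complex `ℤG → ℤG ^ 2 → ℤG → ℤ` with two 1-cells and one 2-cell,
while no finite presentation of `G` has more generators than relators. -/
theorem result : ∃ (G : Type) (_ : Group G), Group.IsFinitelyPresented G ∧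
    (∃ g : G, g ≠ 1 ∧ IsOfFinOrder g) ∧
    (∃ t : G, Subgroup.normalClosure {t} = ⊤) ∧
    (∃ (d₂ : MonoidAlgebra ℤ G →ₗ[MonoidAlgebra ℤ G] (Fin 2 → MonoidAlgebra ℤ G))
        (d₁ : (Fin 2 → MonoidAlgebra ℤ G) →ₗ[MonoidAlgebra ℤ G] MonoidAlgebra ℤ G),
      Function.Exact d₂ d₁ ∧ Function.Exact d₁ (MonoidAlgebra.lift ℤ ℤ G 1)) ∧
    ∀ (m n : ℕ) (r : Fin n → FreeGroup (Fin m)),
      Nonempty (PresentedGroup (Set.range r) ≃* G) → m ≤ n := by
  have : Finite SS := Set.toFinite ({FreeGroup.of 0 ^ 6, ev th sw} : Set (FreeGroup (Fin 2)))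
  have hk : (PresentedGroup.mk SS).ker = Subgroup.normalClosure SS := QuotientGroup.ker_mk' _
  refine ⟨PresentedGroup SS, inferInstance, inferInstance,
    ⟨PresentedGroup.mk SS (FreeGroup.of 0), fun h => ?_, u_fin⟩,
    ⟨PresentedGroup.mk SS (FreeGroup.of 1), ?_⟩,
    ⟨_, _, exact_one _ (PresentedGroup.mk_surjective SS) (ev th sw) (hk ▸ cyclic_module),
      exact_zero _ (PresentedGroup.mk_surjective SS)⟩,
    fun m n r ⟨e⟩ => def_le_zero m n r e⟩
  · exact no_perfect ⊥ Subgroup.FG.bot (Subgroup.commutator_bot_left _) (Subgroup.mem_bot.2 h)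
  · rw [eq_top_iff]
    intro y _
    obtain ⟨z, rfl⟩ := PresentedGroup.mk_surjective SS y
    exact (QuotientGroup.eq_one_iff _).1 (weight_one
      ((QuotientGroup.mk' (Subgroup.normalClosure {PresentedGroup.mk SS (FreeGroup.of 1)})).comp
        (PresentedGroup.mk SS))
      ((QuotientGroup.eq_one_iff _).2 (Subgroup.subset_normalClosure rfl))
      (by rw [MonoidHom.comp_apply, PresentedGroup.mk_eq_one_iff.2 sw_mem, map_one]) z)

end Pool.Agent.Results.MP_488119_gt.AlgebraicComplex
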